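import Mathlib
import Pool.Agent.Lib.MP_291982_ag.Defs
import Pool.Agent.Lib.MP_291982_ag.Basic
import Pool.Agent.Lib.MP_291982_ag.Irred
import Pool.Agent.Lib.MP_291982_ag.Quadric

/-!
# Negative answer to Q1

For every `n ≥ 3`, every odd prime `p` (in particular every prime `p > n`) and every finite field
`Fq` of characteristic `p` with `q` elements, put `Yᵢ = Xᵢ^q - Xᵢ X₂^(q-1)`. The hypersurface
`Y₀ Y₁ = Y₃² + … + Yₙ²` of `ℙⁿ` is absolutely irreducible and `𝔽_q`-Frobenius nonclassical (the
derivation `∑ Xᵢ^q ∂/∂Xᵢ` multiplies each `Yᵢ` by `-X₂^(q-1)`), and its Gauss map does not admit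
powers of `p` as coordinate functions.
-/

namespace Pool.Agent.Results.MP_291982_ag.GaussMapNotPthPower

open MvPolynomial Pool.Agent.Lib.MP_291982_ag

theorem result (p : ℕ) (hp2 : p ≠ 2) (Fq : Type*) [Field Fq] [Fintype Fq] [CharP Fq p]
    (n : ℕ) (hn : 3 ≤ n) :
    ∃ (d : ℕ) (F : MvPolynomial (Fin (n + 1)) Fq),
      0 < d ∧ F.IsHomogeneous d ∧
      Irreducible (map (algebraMap Fq (AlgebraicClosure Fq)) F) ∧
      IsFrobeniusNonclassical F ∧
      ¬ GaussMapHasPthPowerCoordinates p (map (algebraMap Fq (AlgebraicClosure Fq)) F) := by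
  obtain ⟨m, rfl⟩ : ∃ m, n = m + 3 := ⟨n - 3, by omega⟩
  set q := Fintype.card Fq with hqdef
  have hq2 : 2 ≤ q := Fintype.one_lt_card
  have hq0 : (q : Fq) = 0 := FiniteField.cast_card_eq_zero Fq
  have hp : p ≠ 0 := by
    rintro rfl
    exact CharP.char_ne_zero_of_finite Fq 0 rfl
  set k := AlgebraicClosure Fq with hk
  have hqk : (q : k) = 0 := by
    have := congrArg (algebraMap Fq k) hq0
    simpa using this
  have : CharP k p := charP_of_injective_algebraMap (algebraMap Fq k).injective p
  have h2k : (2 : k) ≠ 0 := by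
    have : ((2 : ℕ) : k) ≠ 0 := by
      intro h
      rw [CharP.cast_eq_zero_iff k p] at h
      have hp' : p.Prime := (CharP.char_is_prime_or_zero k p).resolve_right hp
      exact hp2 ((Nat.prime_dvd_prime_iff_eq hp' Nat.prime_two).1 h)
    exact_mod_cast this
  have hirr := irreducible_quad k q m hq2
  refine ⟨q + q, quad Fq q m, by omega, isHomogeneous_quad q m (by omega), ?_, ?_, ?_⟩
  · rw [map_quad]
    exact hirr
  · rw [IsFrobeniusNonclassical, sum_eq_frobDer, ← hqdef, frobDer_quad q m (by omega) hq0]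
    exact dvd_mul_right _ _
  · rw [map_quad]
    have h20 : (2 : Fin (m + 3 + 1)) ≠ 0 := two_ne_zero_fin m
    have h21 : (2 : Fin (m + 3 + 1)) ≠ 1 := by
      intro h; have := congrArg Fin.val h; rw [fin_two_val, fin_one_val] at this; omega
    have h10 : (1 : Fin (m + 3 + 1)) ≠ 0 := by
      intro h; have := congrArg Fin.val h; simp at this
    apply not_gaussMapHasPthPowerCoordinates p hp _ hirr 0 1
    rw [pderiv_zero_quad q m hqk, pderiv_one_quad q m hqk]
    rw [pderiv_mul, pderiv_mul, pderiv_mul, pderiv_mul, pderiv_tl_ne q h20 h10,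
      pderiv_tl_ne q h21 h10.symm, pderiv_tl_self q hqk h20, pderiv_tl_self q hqk h21, map_neg,
      map_neg, pderiv_pow, pderiv_pow, pderiv_X_of_ne h20, pderiv_X_of_ne h21]
    intro hd0
    have hd : quad k q m ∣ C (-2) * (((X 2 ^ (q - 1)) ^ 4 * tl k q 2 0) * tl k q 2 1) := by
      convert hd0 using 1
      rw [C_neg, show (2 : k) = ((2 : ℕ) : k) by norm_num, map_natCast]
      push_cast
      ring
    have hprime := hirr.prime
    have htl : ∀ i : Fin (m + 3 + 1), 2 ≠ i → ¬ quad k q m ∣ tl k q 2 i := by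
      intro i hi hd
      have hne : tl k q 2 i ≠ 0 := by
        intro h0
        have := pderiv_tl_self (R := k) q hqk hi
        rw [h0, map_zero] at this
        have h3 : (X 2 : MvPolynomial (Fin (m + 3 + 1)) k) ^ (q - 1) = 0 := by
          rw [← neg_eq_zero, ← this]
        exact X_ne_zero 2 (pow_eq_zero_iff (by omega) |>.1 h3)
      have h1 := totalDegree_le_of_dvd_of_isDomain hd hne
      rw [(isHomogeneous_quad q m (by omega)).totalDegree hirr.ne_zero,
        (isHomogeneous_tl q (by omega) 2 i).totalDegree hne] at h1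
      omega
    rcases hprime.dvd_or_dvd hd with hd | hd
    · have : IsUnit (C (-2) : MvPolynomial (Fin (m + 3 + 1)) k) :=
        (IsUnit.mk0 (-2 : k) (neg_ne_zero.2 h2k)).map C
      exact hprime.not_unit (isUnit_of_dvd_unit hd this)
    rcases hprime.dvd_or_dvd hd with hd | hd
    · rcases hprime.dvd_or_dvd hd with hd | hd
      · have hd' := hprime.dvd_of_dvd_pow (hprime.dvd_of_dvd_pow hd)
        have h1 := totalDegree_le_of_dvd_of_isDomain hd' (X_ne_zero 2)
        rw [(isHomogeneous_quad q m (by omega)).totalDegree hirr.ne_zero, totalDegree_X] at h1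
        omega
      · exact htl 0 h20 hd
    · exact htl 1 h21 hd

end Pool.Agent.Results.MP_291982_ag.GaussMapNotPthPower
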