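import Mathlib
import Pool.Agent.Lib.MP_291982_ag.Defs
import Pool.Agent.Lib.MP_291982_ag.Basic
import Pool.Agent.Lib.MP_291982_ag.Irred
import Pool.Agent.Lib.MP_291982_ag.Quadric
import Pool.Agent.Lib.MP_291982_ag.Chord
import Pool.Agent.Lib.MP_291982_ag.MonomialMap
import Pool.Agent.Lib.MP_291982_ag.Cubic

/-!
# Negative answer to Q2

For every `n ≥ 3`, every odd prime `p` (in particular every prime `p > n`) and every finite field
`Fq` of characteristic `p` with `q` elements, write `z, x, y, w` for the first four coordinates of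
`ℙⁿ` and put `X = x^q - x w^(q-1)`, `Y = y^q - y w^(q-1)`, `Z = z^q - z w^(q-1)`. The hypersurface
`w (Y² - X Z) + X (x^q y - x y^q) = 0` is absolutely irreducible and `𝔽_q`-Frobenius nonclassical,
it contains the twisted cubic `(z : x : y : w) = (t³ : s² t : s t² : s³)`, and on the twisted cubic
the ratio `F_y / F_z` equals `-(t^q + 2 t s^(q-1)) / s^q`, which is not a `p`-th power.
-/

namespace Pool.Agent.Results.MP_291982_ag.SeparableOnCurve

open MvPolynomial Pool.Agent.Lib.MP_291982_ag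

theorem result (p : ℕ) (hp2 : p ≠ 2) (Fq : Type*) [Field Fq] [Fintype Fq] [CharP Fq p]
    (n : ℕ) (hn : 3 ≤ n) :
    ∃ (d : ℕ) (F : MvPolynomial (Fin (n + 1)) Fq) (I : Ideal (MvPolynomial (Fin (n + 1)) Fq)),
      0 < d ∧ F.IsHomogeneous d ∧
      Irreducible (map (algebraMap Fq (AlgebraicClosure Fq)) F) ∧
      IsFrobeniusNonclassical F ∧
      IsIrreducibleCurveDefinedOver Fq (AlgebraicClosure Fq) I ∧
      F ∈ I ∧
      (∃ j, pderiv j (map (algebraMap Fq (AlgebraicClosure Fq)) F) ∉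
        I.map (map (algebraMap Fq (AlgebraicClosure Fq)))) ∧
      ¬ GaussMapInseparableOn p (map (algebraMap Fq (AlgebraicClosure Fq)) F)
        (I.map (map (algebraMap Fq (AlgebraicClosure Fq)))) := by
  obtain ⟨m, rfl⟩ : ∃ m, n = m + 3 := ⟨n - 3, by omega⟩
  set q := Fintype.card Fq with hqdef
  have hq2 : 2 ≤ q := Fintype.one_lt_card
  have hq0 : (q : Fq) = 0 := FiniteField.cast_card_eq_zero Fq
  have hp : p ≠ 0 := by
    rintro rfl
    exact CharP.char_ne_zero_of_finite Fq 0 rfl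
  set k := AlgebraicClosure Fq with hk
  have hqk : (q : k) = 0 := by
    have := congrArg (algebraMap Fq k) hq0
    simpa using this
  have : CharP k p := charP_of_injective_algebraMap (algebraMap Fq k).injective p
  have h2k : (2 : k) ≠ 0 := by
    have : ((2 : ℕ) : k) ≠ 0 := by
      intro h
      rw [CharP.cast_eq_zero_iff k p] at h
      have hp' : p.Prime := (CharP.char_is_prime_or_zero k p).resolve_right hp
      exact hp2 ((Nat.prime_dvd_prime_iff_eq hp' Nat.prime_two).1 h)
    exact_mod_cast this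
  have hker := map_ker_monMap Fq k (cubExp m)
  -- the basic nonvanishing
  have hder : pderiv 1 (X 1 ^ q - X 1 * X 0 ^ (q - 1) : MvPolynomial (Fin 2) k) =
      - X 0 ^ (q - 1) := by
    rw [map_sub, pderiv_pow, pderiv_mul, pderiv_pow, pderiv_X_self,
      pderiv_X_of_ne (by simp : (0 : Fin 2) ≠ 1), natCast_eq_zero' hqk]
    ring
  have hne : (X 1 ^ q - X 1 * X 0 ^ (q - 1) : MvPolynomial (Fin 2) k) ≠ 0 := by
    intro h
    rw [h, map_zero, zero_eq_neg] at hder
    exact pow_ne_zero _ (X_ne_zero 0) hder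
  have hX0 : (X 0 : MvPolynomial (Fin 2) k) ≠ 0 := X_ne_zero 0
  have hF0 : cubMap k m (pderiv 0 (chord k q m)) ≠ 0 := by
    rw [cubMap_pderiv_zero k q m (by omega) hqk]
    exact mul_ne_zero (mul_ne_zero (pow_ne_zero _ (pow_ne_zero _ hX0)) (pow_ne_zero _ hX0)) hne
  refine ⟨1 + (q + q), chord Fq q m, RingHom.ker (cubMap Fq m), by omega,
    isHomogeneous_chord q m (by omega), ?_, ?_, ⟨?_, ?_, ?_⟩, ?_, ?_, ?_⟩
  · rw [map_chord]
    exact irreducible_chord k q m hq2
  · rw [IsFrobeniusNonclassical, sum_eq_frobDer, ← hqdef, frobDer_chord q m (by omega) hq0]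
    exact dvd_mul_right _ _
  · intro f hf d
    exact homogeneousComponent_mem_ker_monMap Fq (cubExp m) (by norm_num : 0 < 3)
      (isHomogeneous_cub Fq m) f hf d
  · rw [hker]
    exact RingHom.ker_isPrime _
  · rw [hker]
    exact trdeg_quotient_ker_cubMap k m
  · rw [RingHom.mem_ker]
    exact cubMap_chord Fq q m (by omega)
  · rw [hker, map_chord]
    exact ⟨0, fun h => hF0 (by rwa [RingHom.mem_ker] at h)⟩
  · rw [hker, map_chord]
    intro h
    obtain ⟨e, a, b, -, -, hb, hab⟩ := h 2 0 (fun h => hF0 (by rwa [RingHom.mem_ker] at h))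
    rw [RingHom.mem_ker] at hb hab
    rw [map_sub, map_mul, map_mul, map_pow, map_pow, sub_eq_zero] at hab
    have hw := wronskian_eq_zero p 1 hb hab
    rw [cubMap_pderiv_zero k q m (by omega) hqk, cubMap_pderiv_two k q m (by omega) hqk] at hw
    set W : MvPolynomial (Fin 2) k := X 0 ^ (q - 1) with hW
    set U : MvPolynomial (Fin 2) k := X 1 ^ q - X 1 * W with hU
    have hWd : pderiv 1 W = 0 := by
      rw [hW, pderiv_pow, pderiv_X_of_ne (by simp : (0 : Fin 2) ≠ 1), mul_zero]
    have hTd : pderiv 1 (X 1 ^ q : MvPolynomial (Fin 2) k) = 0 := by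
      rw [pderiv_pow, natCast_eq_zero' hqk, zero_mul, zero_mul]
    have hsd : pderiv 1 (X 0 : MvPolynomial (Fin 2) k) = 0 :=
      pderiv_X_of_ne (by simp : (0 : Fin 2) ≠ 1)
    have h2d : pderiv 1 (2 : MvPolynomial (Fin 2) k) = 0 := by
      have : (2 : MvPolynomial (Fin 2) k) = C 2 := by
        rw [map_ofNat]
      rw [this, pderiv_C]
    have hVd : pderiv 1 (X 1 ^ q + 2 * X 1 * W : MvPolynomial (Fin 2) k) = 2 * W := by
      rw [map_add, hTd, pderiv_mul, pderiv_mul, pderiv_X_self, hWd, h2d]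
      ring
    have hs4 : pderiv 1 (X 0 ^ 4 : MvPolynomial (Fin 2) k) = 0 := by
      rw [pderiv_pow, hsd, mul_zero]
    have hs5 : pderiv 1 (X 0 ^ 5 : MvPolynomial (Fin 2) k) = 0 := by
      rw [pderiv_pow, hsd, mul_zero]
    have hW4 : pderiv 1 (W ^ 4) = 0 := by
      rw [pderiv_pow, hWd, mul_zero]
    have hW5 : pderiv 1 (W ^ 5) = 0 := by
      rw [pderiv_pow, hWd, mul_zero]
    rw [map_neg, pderiv_mul, pderiv_mul, pderiv_mul, pderiv_mul, pderiv_mul, hW4, hW5, hs4, hs5,
      hVd, hder] at hw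
    have h3 : C 2 * (W ^ 10 * X 0 ^ 9 * U ^ 2) = 0 := by
      have hX1 : (X 1 : MvPolynomial (Fin 2) k) ^ q = U + X 1 * W := by
        rw [hU]; ring
      rw [hX1] at hw
      rw [map_ofNat]
      linear_combination -hw
    have h4 : (C 2 : MvPolynomial (Fin 2) k) ≠ 0 := by
      intro h
      exact h2k (C_injective _ _ (by rw [h, C_0]))
    exact (mul_ne_zero h4 (mul_ne_zero (mul_ne_zero (pow_ne_zero _ (pow_ne_zero _ hX0))
      (pow_ne_zero _ hX0)) (pow_ne_zero _ hne))) h3

end Pool.Agent.Results.MP_291982_ag.SeparableOnCurve
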